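import Pool.Agent.FLX.Stmts

/-!
# Row FIN: a solution of the integral equation gives a conformal metric
-/

set_option autoImplicit false

open scoped InnerProductSpace Topology ContDiff Manifold
open MeasureTheory Filter Set

namespace Pool.Agent.FLX.H69

open Pool.Agent.Helper42_Paneitz Pool.Agent.Helper82_Vir Pool.Agent.FLX

theorem fin (reg : RegStmt) (slv : SlvStmt) : FinStmt := by
  intro Q w hQ hw
  obtain ⟨hc, havg, c, hcw⟩ := hw
  have hws : Sm w := reg Q w c hQ hc hcw
  set f : S4 → ℝ := fun y => Q y * Real.exp (4 * w y) with hf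
  have hfs : Sm f := sm_mul hQ (sm_comp (hws.smul 4) Real.contDiff_exp)
  have hKs : Sm (K f) := by
    have h1 : K f = fun x => w x + (-c) := by
      funext x
      rw [hcw x]
      ring
    rw [h1]
    exact hws.add (sm_const (-c))
  refine ⟨contMDiff_of_sm hQ, w, contMDiff_of_sm hws, fun x => ?_⟩
  have h2 : w = fun x => K f x + c := funext hcw
  have h3 : paneitz w x = paneitz (fun x => K f x + c) x := by rw [← h2]
  rw [h3, paneitz_add hKs (sm_const c), paneitz_const, add_zero, slv f hfs x, havg]

end Pool.Agent.FLX.H69
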